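import Mathlib

open Set Filter Topology

namespace Pool.Agent.Results.MP_5c431f_gt.Counterexample

universe u

/-- A perfect map: continuous, closed, surjective, with compact fibres. -/
def IsPerfectMap {X Y : Type*} [TopologicalSpace X] [TopologicalSpace Y] (f : X → Y) : Prop :=
  Continuous f ∧ IsClosedMap f ∧ Function.Surjective f ∧ ∀ y, IsCompact (f ⁻¹' {y})

/-- The star of a point in a family of sets. -/
def st {Y : Type*} (y : Y) (G : Set (Set Y)) : Set Y := ⋃₀ {U | U ∈ G ∧ y ∈ U}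

/-- Developable space: there are open covers `G 0, G 1, …` such that for each point `y` the
stars of `y` form a neighbourhood base at `y`. -/
def Developable (Y : Type*) [TopologicalSpace Y] : Prop :=
  ∃ G : ℕ → Set (Set Y), (∀ n, (∀ U ∈ G n, IsOpen U) ∧ ⋃₀ G n = univ) ∧
    ∀ y, (𝓝 y).HasBasis (fun _ : ℕ => True) (fun n => st y (G n))

/-- A perfect preimage of a developable space. -/
def PerfectPreimageOfDevelopable (X : Type) [TopologicalSpace X] : Prop :=
  ∃ (D : Type u) (_ : TopologicalSpace D), Developable D ∧ ∃ g : X → D, IsPerfectMap g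

/-! ### A general construction -/

/-- The set `W ∪ L`. -/
inductive Sp {W L : Type} (lev : W → ℕ) (C : L → Set W) : Type
  | w (a : W) : Sp lev C
  | l (a : L) : Sp lev C

variable {W L : Type} [TopologicalSpace W] {lev : W → ℕ} {C : L → Set W}

instance : TopologicalSpace (Sp lev C) where
  IsOpen U := IsOpen (Sp.w ⁻¹' U) ∧ ∀ ℓ, Sp.l ℓ ∈ U → ∃ M, ∀ a ∈ C ℓ, M ≤ lev a → Sp.w a ∈ U
  isOpen_univ := ⟨by simp, fun _ _ => ⟨0, fun _ _ _ => trivial⟩⟩
  isOpen_inter := by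
    rintro U V ⟨h1, h2⟩ ⟨h3, h4⟩
    refine ⟨h1.inter h3, fun ℓ hℓ => ?_⟩
    obtain ⟨M, hM⟩ := h2 ℓ hℓ.1
    obtain ⟨M', hM'⟩ := h4 ℓ hℓ.2
    exact ⟨max M M', fun a ha hl => ⟨hM a ha (le_trans (le_max_left _ _) hl),
      hM' a ha (le_trans (le_max_right _ _) hl)⟩⟩
  isOpen_sUnion := by
    intro S hS
    refine ⟨?_, fun ℓ hℓ => ?_⟩
    · rw [preimage_sUnion]
      exact isOpen_biUnion fun U hU => (hS U hU).1
    · obtain ⟨U, hU, hℓU⟩ := hℓ
      obtain ⟨M, hM⟩ := (hS U hU).2 ℓ hℓU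
      exact ⟨M, fun a ha hl => ⟨U, hU, hM a ha hl⟩⟩

lemma isOpen_Sp {U : Set (Sp lev C)} : IsOpen U ↔ IsOpen (Sp.w ⁻¹' U) ∧
    ∀ ℓ, Sp.l ℓ ∈ U → ∃ M, ∀ a ∈ C ℓ, M ≤ lev a → Sp.w a ∈ U := Iff.rfl

lemma continuous_w : Continuous (Sp.w : W → Sp lev C) := by
  rw [continuous_def]
  exact fun U hU => hU.1

/-- all points of `W` -/
lemma zeroDim (hlev : Continuous lev) (hC : ∀ ℓ, IsClopen (C ℓ))
    (hz : ∀ a : W, ∀ U ∈ 𝓝 a, ∃ V, IsClopen V ∧ a ∈ V ∧ V ⊆ U)
    (hdis : ∀ ℓ ℓ', ℓ ≠ ℓ' → ∃ M, ∀ a ∈ C ℓ, a ∈ C ℓ' → lev a < M)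
    (p : Sp lev C) (U : Set (Sp lev C)) (hU : IsOpen U) (hp : p ∈ U) :
    ∃ V, IsClopen V ∧ p ∈ V ∧ V ⊆ U := by
  cases p with
  | w a =>
    obtain ⟨V, hV, haV, hVU⟩ := hz a (Sp.w ⁻¹' U ∩ lev ⁻¹' {lev a}) (by
      apply inter_mem (hU.1.mem_nhds hp)
      exact ((isOpen_discrete {lev a}).preimage hlev).mem_nhds rfl)
    have hpre : (Sp.w ⁻¹' (Sp.w '' V : Set (Sp lev C))) = V := by
      ext b
      constructor
      · rintro ⟨c, hc, h⟩
        cases h
        exact hc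
      · intro hb
        exact ⟨b, hb, rfl⟩
    refine ⟨Sp.w '' V, ⟨?_, ?_⟩, ⟨a, haV, rfl⟩, ?_⟩
    · rw [← isOpen_compl_iff, isOpen_Sp]
      refine ⟨by rw [preimage_compl, hpre]; exact hV.1.isOpen_compl, fun ℓ _ =>
        ⟨lev a + 1, fun b _ hl hb => ?_⟩⟩
      have hbV : b ∈ V := by rw [← hpre]; exact hb
      have : lev b = lev a := (hVU hbV).2
      omega
    · rw [isOpen_Sp]
      refine ⟨by rw [hpre]; exact hV.2, fun ℓ hℓ => ?_⟩
      obtain ⟨b, _, hb⟩ := hℓ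
      cases hb
    · rintro _ ⟨b, hb, rfl⟩
      exact (hVU hb).1
  | l ℓ =>
    obtain ⟨M, hM⟩ := hU.2 ℓ hp
    let V : Set (Sp lev C) := {q | q = Sp.l ℓ ∨ ∃ a ∈ C ℓ, M ≤ lev a ∧ q = Sp.w a}
    have hpre : (Sp.w ⁻¹' V) = C ℓ ∩ lev ⁻¹' (Ici M) := by
      ext b
      constructor
      · rintro (h | ⟨a, ha, hl, h⟩)
        · cases h
        · cases h
          exact ⟨ha, hl⟩
      · rintro ⟨h1, h2⟩
        exact Or.inr ⟨b, h1, h2, rfl⟩
    have hclopen : IsClopen (C ℓ ∩ lev ⁻¹' (Ici M)) :=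
      (hC ℓ).inter ((isClopen_discrete (Ici M)).preimage hlev)
    refine ⟨V, ⟨?_, ?_⟩, Or.inl rfl, ?_⟩
    · rw [← isOpen_compl_iff, isOpen_Sp]
      refine ⟨by rw [preimage_compl, hpre]; exact hclopen.1.isOpen_compl, fun ℓ' hℓ' => ?_⟩
      have hne : ℓ' ≠ ℓ := by
        rintro rfl
        exact hℓ' (Or.inl rfl)
      obtain ⟨M', hM'⟩ := hdis ℓ' ℓ hne
      refine ⟨M', fun a ha hl hcon => ?_⟩
      have : a ∈ C ℓ ∩ lev ⁻¹' (Ici M) := by rw [← hpre]; exact hcon
      have := hM' a ha this.1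
      omega
    · rw [isOpen_Sp]
      refine ⟨by rw [hpre]; exact hclopen.2, fun ℓ' hℓ' => ?_⟩
      rcases hℓ' with h | ⟨a, _, _, h⟩
      · cases h
        exact ⟨M, fun a ha hl => Or.inr ⟨a, ha, hl, rfl⟩⟩
      · cases h
    · rintro _ (rfl | ⟨a, ha, hl, rfl⟩)
      · exact hp
      · exact hM a ha hl

lemma t1 [T1Space W] : T1Space (Sp lev C) := by
  refine ⟨fun p => ?_⟩
  rw [← isOpen_compl_iff, isOpen_Sp]
  cases p with
  | w a =>
    have hpre : (Sp.w ⁻¹' ({Sp.w a}ᶜ : Set (Sp lev C))) = {a}ᶜ := by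
      ext b
      simp
    refine ⟨by rw [hpre]; exact isOpen_compl_singleton, fun ℓ _ => ⟨lev a + 1, fun b _ hl hb => ?_⟩⟩
    have : b = a := by simpa using hb
    subst this
    omega
  | l ℓ =>
    have hpre : (Sp.w ⁻¹' ({Sp.l ℓ}ᶜ : Set (Sp lev C))) = univ := by
      ext b
      simp
    refine ⟨by rw [hpre]; exact isOpen_univ, fun ℓ' _ => ⟨0, fun b _ _ hb => ?_⟩⟩
    simp at hb

lemma t35_of_zeroDim {X : Type} [TopologicalSpace X] [T1Space X]
    (h : ∀ (p : X) (U : Set X), IsOpen U → p ∈ U → ∃ V, IsClopen V ∧ p ∈ V ∧ V ⊆ U) :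
    T35Space X := by
  have : CompletelyRegularSpace X := by
    refine ⟨fun x K hK hx => ?_⟩
    obtain ⟨V, hV, hxV, hVK⟩ := h x Kᶜ hK.isOpen_compl hx
    classical
    refine ⟨fun y => if y ∈ V then 0 else 1, ?_, by simp [hxV], fun y hy => ?_⟩
    · apply IsLocallyConstant.continuous
      rw [IsLocallyConstant.iff_eventually_eq]
      intro y
      by_cases hy : y ∈ V
      · filter_upwards [hV.2.mem_nhds hy] with z hz
        simp [hy, hz]
      · filter_upwards [hV.1.isOpen_compl.mem_nhds hy] with z hz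
        have hz' : z ∉ V := hz
        simp [hy, hz']
    · have : y ∉ V := fun h => hVK h hy
      simp [this]
  exact {}

/-! ### The spaces -/

/-- Index set of the slices, a countable discrete space. -/
def N : Type := ℕ × Finset ℕ

instance : TopologicalSpace N := ⊥
instance : DiscreteTopology N := ⟨rfl⟩
instance : Countable N := inferInstanceAs (Countable (ℕ × Finset ℕ))

/-- The uncountable index set. -/
abbrev S : Type := ℕ → Bool

/-- The compact Hausdorff space `{0,1}^S`. -/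
abbrev K : Type := S → Bool

/-- The `m`-th initial piece of `x`. -/
def cut (x : S) (m : ℕ) : N := (m, (Finset.range m).filter (fun k => x k = true))

@[simp] lemma cut_fst (x : S) (m : ℕ) : (cut x m).1 = m := rfl

lemma cut_eq {x y : S} {m : ℕ} (h : cut x m = cut y m) (k : ℕ) (hk : k < m) : x k = y k := by
  have h1 : (Finset.range m).filter (fun k => x k = true) =
      (Finset.range m).filter (fun k => y k = true) := congrArg Prod.snd h
  have h2 := Finset.ext_iff.1 h1 k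
  simp only [Finset.mem_filter, Finset.mem_range, hk, true_and] at h2
  cases hx : x k <;> cases hy : y k <;> simp_all

lemma cut_ne {x y : S} (h : x ≠ y) : ∃ M, ∀ m, cut x m = cut y m → m < M := by
  obtain ⟨k, hk⟩ := Function.ne_iff.1 h
  refine ⟨k + 1, fun m hm => ?_⟩
  by_contra hcon
  exact hk (cut_eq hm k (by omega))

abbrev WX : Type := ℕ × N × K
abbrev WD : Type := ℕ × N

def levX (p : WX) : ℕ := p.2.1.1
def levD (p : WD) : ℕ := p.2.1

abbrev LX : Type := ℕ × S × Bool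
abbrev LY : Type := ℕ × S

def CX (ℓ : LX) : Set WX :=
  {p | p.1 = ℓ.1 ∧ p.2.1 = cut ℓ.2.1 p.2.1.1 ∧ p.2.2 ℓ.2.1 = ℓ.2.2}

def CY (ℓ : LY) : Set WX :=
  {p | p.2.1 = cut ℓ.2 p.2.1.1 ∧
    ((p.1 = ℓ.1 ∧ p.2.2 ℓ.2 = true) ∨ (p.1 + 1 = ℓ.1 ∧ p.2.2 ℓ.2 = false))}

def CD (ℓ : LY) : Set WD := {p | p.1 = ℓ.1 ∧ p.2 = cut ℓ.2 p.2.1}

/-- The perfect preimage. -/
abbrev X : Type := Sp levX CX
/-- Its perfect image. -/
abbrev Y : Type := Sp levX CY
/-- The developable space. -/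
abbrev D : Type := Sp levD CD

lemma continuous_levX : Continuous levX :=
  (continuous_of_discreteTopology (f := fun n : N => n.1)).comp
    (continuous_fst.comp continuous_snd)

lemma continuous_levD : Continuous levD :=
  (continuous_of_discreteTopology (f := fun n : N => n.1)).comp continuous_snd

lemma isClopen_CX (ℓ : LX) : IsClopen (CX ℓ) := by
  have hc : Continuous (fun p : WX => (p.1, p.2.1, p.2.2 ℓ.2.1)) := by fun_prop
  exact (isClopen_discrete {q : ℕ × N × Bool | q.1 = ℓ.1 ∧ q.2.1 = cut ℓ.2.1 q.2.1.1 ∧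
    q.2.2 = ℓ.2.2}).preimage hc

lemma isClopen_CY (ℓ : LY) : IsClopen (CY ℓ) := by
  have hc : Continuous (fun p : WX => (p.1, p.2.1, p.2.2 ℓ.2)) := by fun_prop
  exact (isClopen_discrete {q : ℕ × N × Bool | q.2.1 = cut ℓ.2 q.2.1.1 ∧
    ((q.1 = ℓ.1 ∧ q.2.2 = true) ∨ (q.1 + 1 = ℓ.1 ∧ q.2.2 = false))}).preimage hc

lemma isClopen_CD (ℓ : LY) : IsClopen (CD ℓ) := isClopen_discrete _

lemma zero_W {Z : Type} [TopologicalSpace Z] [LocallyCompactSpace Z] [T2Space Z]
    [TotallyDisconnectedSpace Z] (a : Z) (U : Set Z) (hU : U ∈ 𝓝 a) :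
    ∃ V, IsClopen V ∧ a ∈ V ∧ V ⊆ U := by
  obtain ⟨V, hV, haV, hVU⟩ := (loc_compact_Haus_tot_disc_of_zero_dim (H := Z)).mem_nhds_iff.1 hU
  exact ⟨V, hV, haV, hVU⟩

lemma disX (ℓ ℓ' : LX) (h : ℓ ≠ ℓ') : ∃ M, ∀ a ∈ CX ℓ, a ∈ CX ℓ' → levX a < M := by
  obtain ⟨i, x, b⟩ := ℓ
  obtain ⟨j, y, c⟩ := ℓ'
  by_cases hxy : x = y
  · subst hxy
    refine ⟨0, ?_⟩
    rintro ⟨k, n, z⟩ ⟨h1, h2, h3⟩ ⟨h4, h5, h6⟩
    exfalso
    apply h
    simp only at h1 h3 h4 h6
    subst h1 h3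
    rw [← h4, ← h6]
  · obtain ⟨M, hM⟩ := cut_ne hxy
    refine ⟨M, ?_⟩
    rintro ⟨k, n, z⟩ ⟨h1, h2, h3⟩ ⟨h4, h5, h6⟩
    exact hM _ (h2.symm.trans h5)

lemma disY (ℓ ℓ' : LY) (h : ℓ ≠ ℓ') : ∃ M, ∀ a ∈ CY ℓ, a ∈ CY ℓ' → levX a < M := by
  obtain ⟨i, x⟩ := ℓ
  obtain ⟨j, y⟩ := ℓ'
  by_cases hxy : x = y
  · subst hxy
    refine ⟨0, ?_⟩
    rintro ⟨k, n, z⟩ ⟨h1, h2⟩ ⟨h4, h5⟩
    exfalso
    apply h
    simp only at h2 h5
    rcases h2 with ⟨h2, h3⟩ | ⟨h2, h3⟩ <;> rcases h5 with ⟨h5, h6⟩ | ⟨h5, h6⟩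
    · rw [← h2, ← h5]
    · rw [h3] at h6; exact absurd h6 (by decide)
    · rw [h3] at h6; exact absurd h6 (by decide)
    · rw [← h2, ← h5]
  · obtain ⟨M, hM⟩ := cut_ne hxy
    refine ⟨M, ?_⟩
    rintro ⟨k, n, z⟩ ⟨h1, h2⟩ ⟨h4, h5⟩
    exact hM _ (h1.symm.trans h4)

lemma disD (ℓ ℓ' : LY) (h : ℓ ≠ ℓ') : ∃ M, ∀ a ∈ CD ℓ, a ∈ CD ℓ' → levD a < M := by
  obtain ⟨i, x⟩ := ℓ
  obtain ⟨j, y⟩ := ℓ'
  by_cases hxy : x = y
  · subst hxy
    refine ⟨0, ?_⟩
    rintro ⟨k, n⟩ ⟨h1, h2⟩ ⟨h4, h5⟩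
    exfalso
    apply h
    simp only at h1 h4
    rw [← h1, ← h4]
  · obtain ⟨M, hM⟩ := cut_ne hxy
    refine ⟨M, ?_⟩
    rintro ⟨k, n⟩ ⟨h1, h2⟩ ⟨h4, h5⟩
    exact hM _ (h2.symm.trans h5)

instance : T1Space X := t1
instance : T1Space Y := t1
instance : T1Space D := t1

instance t35X : T35Space X :=
  t35_of_zeroDim (zeroDim continuous_levX isClopen_CX zero_W disX)
instance t35Y : T35Space Y :=
  t35_of_zeroDim (zeroDim continuous_levX isClopen_CY zero_W disY)
instance t35D : T35Space D :=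
  t35_of_zeroDim (zeroDim continuous_levD isClopen_CD zero_W disD)

/-- The perfect map `X → Y`. -/
def f : X → Y
  | .w a => .w a
  | .l (i, x, true) => .l (i, x)
  | .l (i, x, false) => .l (i + 1, x)

/-- The perfect map `X → D`. -/
def g : X → D
  | .w a => .w (a.1, a.2.1)
  | .l (i, x, _) => .l (i, x)

lemma perfect_f : IsPerfectMap f := by
  refine ⟨?_, ?_, ?_, ?_⟩
  · rw [continuous_def]
    intro U hU
    rw [isOpen_Sp]
    refine ⟨hU.1, ?_⟩
    rintro ⟨i, x, b⟩ hℓ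
    cases b with
    | true =>
      obtain ⟨M, hM⟩ := hU.2 (i, x) hℓ
      exact ⟨M, fun a ha hl => hM a ⟨ha.2.1, Or.inl ⟨ha.1, ha.2.2⟩⟩ hl⟩
    | false =>
      obtain ⟨M, hM⟩ := hU.2 (i + 1, x) hℓ
      exact ⟨M, fun a ha hl => hM a ⟨ha.2.1, Or.inr ⟨by rw [ha.1], ha.2.2⟩⟩ hl⟩
  · rw [isClosedMap_iff_kernImage]
    intro U hU
    rw [isOpen_Sp]
    refine ⟨?_, ?_⟩
    · have : (Sp.w ⁻¹' kernImage f U : Set WX) = Sp.w ⁻¹' U := by
        ext a
        constructor
        · intro h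
          exact h (x := Sp.w a) rfl
        · intro h q hq
          rcases q with b | ⟨i, x, b⟩
          · simp only [f, Sp.w.injEq] at hq
            subst hq
            exact h
          · cases b <;> simp [f] at hq
      rw [this]
      exact hU.1
    · rintro ⟨i, x⟩ hℓ
      have h1 : Sp.l (i, x, true) ∈ U := hℓ rfl
      obtain ⟨M1, hM1⟩ := hU.2 _ h1
      have h2 : ∃ M2, ∀ a : WX, a.2.1 = cut x a.2.1.1 → a.1 + 1 = i → a.2.2 x = false →
          M2 ≤ levX a → Sp.w a ∈ U := by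
        cases i with
        | zero => exact ⟨0, fun a _ h => by omega⟩
        | succ i =>
          have h3 : Sp.l (i, x, false) ∈ U := hℓ rfl
          obtain ⟨M2, hM2⟩ := hU.2 _ h3
          exact ⟨M2, fun a h4 h5 h6 h7 => hM2 a ⟨by simpa using h5, h4, h6⟩ h7⟩
      obtain ⟨M2, hM2⟩ := h2
      refine ⟨max M1 M2, fun a ha hl q hq => ?_⟩
      have hq' : q = Sp.w a := by
        rcases q with b | ⟨j, y, b⟩
        · simp only [f, Sp.w.injEq] at hq
          rw [hq]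
        · cases b <;> simp [f] at hq
      rw [hq']
      rcases ha.2 with ⟨h4, h5⟩ | ⟨h4, h5⟩
      · exact hM1 a ⟨h4, ha.1, h5⟩ (le_trans (le_max_left _ _) hl)
      · exact hM2 a ha.1 h4 h5 (le_trans (le_max_right _ _) hl)
  · rintro (a | ⟨i, x⟩)
    · exact ⟨.w a, rfl⟩
    · exact ⟨.l (i, x, true), rfl⟩
  · rintro (a | ⟨i, x⟩)
    · apply Set.Finite.isCompact
      refine (Set.finite_singleton (Sp.w a : X)).subset ?_
      intro q hq
      rcases q with b | ⟨j, y, b⟩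
      · simp only [f, mem_preimage, mem_singleton_iff, Sp.w.injEq] at hq
        rw [hq]; rfl
      · cases b <;> simp [f] at hq
    · apply Set.Finite.isCompact
      refine (Set.toFinite ({Sp.l (i, x, true), Sp.l (i - 1, x, false)} : Set X)).subset ?_
      intro q hq
      rcases q with b | ⟨j, y, b⟩
      · simp [f] at hq
      · cases b with
        | true =>
          simp only [f, mem_preimage, mem_singleton_iff, Sp.l.injEq, Prod.mk.injEq] at hq
          obtain ⟨rfl, rfl⟩ := hq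
          exact Or.inl rfl
        | false =>
          simp only [f, mem_preimage, mem_singleton_iff, Sp.l.injEq, Prod.mk.injEq] at hq
          obtain ⟨rfl, rfl⟩ := hq
          exact Or.inr rfl

lemma perfect_g : IsPerfectMap g := by
  refine ⟨?_, ?_, ?_, ?_⟩
  · rw [continuous_def]
    intro U hU
    rw [isOpen_Sp]
    refine ⟨?_, ?_⟩
    · have hc : Continuous (fun a : WX => (a.1, a.2.1)) := by fun_prop
      exact hU.1.preimage hc
    · rintro ⟨i, x, b⟩ hℓ
      obtain ⟨M, hM⟩ := hU.2 (i, x) hℓ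
      exact ⟨M, fun a ha hl => hM (a.1, a.2.1) ⟨ha.1, ha.2.1⟩ hl⟩
  · rw [isClosedMap_iff_kernImage]
    intro U hU
    rw [isOpen_Sp]
    refine ⟨isOpen_discrete _, ?_⟩
    rintro ⟨i, x⟩ hℓ
    obtain ⟨M1, hM1⟩ := hU.2 (i, x, true) (hℓ rfl)
    obtain ⟨M2, hM2⟩ := hU.2 (i, x, false) (hℓ rfl)
    refine ⟨max M1 M2, ?_⟩
    rintro ⟨j, n⟩ ⟨h1, h2⟩ hl q hq
    rcases q with ⟨j', n', z⟩ | ⟨j', y, b⟩
    · simp only [g, Sp.w.injEq, Prod.mk.injEq] at hq
      obtain ⟨rfl, rfl⟩ := hq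
      cases hz : z x with
      | true => exact hM1 _ ⟨h1, h2, hz⟩ (le_trans (le_max_left _ _) hl)
      | false => exact hM2 _ ⟨h1, h2, hz⟩ (le_trans (le_max_right _ _) hl)
    · simp [g] at hq
  · rintro (⟨i, n⟩ | ⟨i, x⟩)
    · exact ⟨.w (i, n, fun _ => false), rfl⟩
    · exact ⟨.l (i, x, true), rfl⟩
  · rintro (⟨i, n⟩ | ⟨i, x⟩)
    · have hc : Continuous (fun z : K => (Sp.w (i, n, z) : X)) :=
        continuous_w.comp (by fun_prop)
      have : g ⁻¹' {Sp.w (i, n)} = range (fun z : K => (Sp.w (i, n, z) : X)) := by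
        ext q
        constructor
        · intro hq
          rcases q with ⟨j', n', z⟩ | ⟨j', y, b⟩
          · simp only [g, mem_preimage, mem_singleton_iff, Sp.w.injEq, Prod.mk.injEq] at hq
            obtain ⟨rfl, rfl⟩ := hq
            exact ⟨z, rfl⟩
          · simp [g] at hq
        · rintro ⟨z, rfl⟩
          rfl
      rw [this]
      exact isCompact_range hc
    · apply Set.Finite.isCompact
      refine (Set.toFinite ({Sp.l (i, x, true), Sp.l (i, x, false)} : Set X)).subset ?_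
      intro q hq
      rcases q with b | ⟨j, y, b⟩
      · simp [g] at hq
      · simp only [g, mem_preimage, mem_singleton_iff, Sp.l.injEq, Prod.mk.injEq] at hq
        obtain ⟨rfl, rfl⟩ := hq
        cases b
        · exact Or.inr rfl
        · exact Or.inl rfl

lemma developable_D : Developable D := by
  let T : LY → ℕ → Set D := fun ℓ j => {q | q = .l ℓ ∨ ∃ a ∈ CD ℓ, j ≤ levD a ∧ q = .w a}
  have hT : ∀ ℓ j, IsOpen (T ℓ j) := by
    intro ℓ j
    rw [isOpen_Sp]
    refine ⟨isOpen_discrete _, fun ℓ' hℓ' => ?_⟩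
    rcases hℓ' with h | ⟨a, _, _, h⟩
    · cases h
      exact ⟨j, fun a ha hl => Or.inr ⟨a, ha, hl, rfl⟩⟩
    · cases h
  have hw : ∀ a : WD, IsOpen ({.w a} : Set D) := by
    intro a
    rw [isOpen_Sp]
    exact ⟨isOpen_discrete _, fun ℓ' hℓ' => by simp at hℓ'⟩
  refine ⟨fun j => (range fun a : WD => ({.w a} : Set D)) ∪ range (fun ℓ => T ℓ j), ?_, ?_⟩
  · intro j
    refine ⟨?_, ?_⟩
    · rintro U (⟨a, rfl⟩ | ⟨ℓ, rfl⟩)
      · exact hw a
      · exact hT ℓ j
    · rw [eq_univ_iff_forall]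
      rintro (a | ℓ)
      · exact ⟨_, Or.inl ⟨a, rfl⟩, rfl⟩
      · exact ⟨_, Or.inr ⟨ℓ, rfl⟩, Or.inl rfl⟩
  · rintro (a | ℓ)
    · rw [hasBasis_iff]
      intro O
      constructor
      · intro hO
        refine ⟨levD a + 1, trivial, ?_⟩
        rintro q ⟨U, ⟨hU, haU⟩, hq⟩
        rcases hU with ⟨b, rfl⟩ | ⟨ℓ, rfl⟩
        · have : q = .w a := by
            rw [mem_singleton_iff] at haU hq
            rw [hq, haU]
          rw [this]
          exact mem_of_mem_nhds hO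
        · exfalso
          rcases haU with h | ⟨b, _, hb, h⟩
          · cases h
          · cases h
            omega
      · rintro ⟨j, -, hj⟩
        refine mem_of_superset ((hw a).mem_nhds rfl) (Subset.trans ?_ hj)
        intro q hq
        exact ⟨_, ⟨Or.inl ⟨a, rfl⟩, rfl⟩, hq⟩
    · rw [hasBasis_iff]
      intro O
      constructor
      · intro hO
        obtain ⟨O', hO'O, hO', hℓ⟩ := mem_nhds_iff.1 hO
        obtain ⟨M, hM⟩ := hO'.2 ℓ hℓ
        refine ⟨M, trivial, ?_⟩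
        rintro q ⟨U, ⟨hU, haU⟩, hq⟩
        apply hO'O
        rcases hU with ⟨b, rfl⟩ | ⟨ℓ', rfl⟩
        · cases haU
        · have : ℓ' = ℓ := by
            rcases haU with h | ⟨b, _, _, h⟩
            · cases h; rfl
            · cases h
          subst this
          rcases hq with h | ⟨b, hb, hl, h⟩
          · cases h
            exact hℓ
          · cases h
            exact hM b hb hl
      · rintro ⟨j, -, hj⟩
        refine mem_of_superset ((hT ℓ j).mem_nhds (Or.inl rfl)) (Subset.trans ?_ hj)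
        intro q hq
        exact ⟨_, ⟨Or.inr ⟨ℓ, rfl⟩, Or.inl rfl⟩, hq⟩

/-! ### `Y` is not a perfect preimage of a developable space -/

section Main

variable {E : Type u} [TopologicalSpace E]

lemma exists_not_mem_st (h : Y → E) (hh : IsPerfectMap h) (G : ℕ → Set (Set E))
    (hG : ∀ y, (𝓝 y).HasBasis (fun _ : ℕ => True) (fun n => st y (G n))) (e e' : E)
    (hne : e' ≠ e) : ∃ n, e' ∉ st e (G n) := by
  obtain ⟨y, rfl⟩ := hh.2.2.1 e'
  have h1 : IsClosed ({h y} : Set E) := by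
    have := hh.2.1 {y} isClosed_singleton
    simpa using this
  have h2 : ({h y}ᶜ : Set E) ∈ 𝓝 e := h1.isOpen_compl.mem_nhds hne.symm
  obtain ⟨n, -, hn⟩ := (hG e).mem_iff.1 h2
  exact ⟨n, fun hcon => hn hcon rfl⟩

/-- the indicator of `x` -/
noncomputable def single (x : S) : K := open Classical in fun y => if y = x then true else false

lemma single_self (x : S) : single x x = true := by simp [single]
lemma single_ne {x y : S} (h : y ≠ x) : single x y = false := by simp [single, h]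

lemma slice (h : Y → E) (hh : IsPerfectMap h) (hE : Developable E) (i : ℕ) (n : N) :
    ∃ C : Set S, C.Countable ∧ ∀ x ∉ C,
      h (.w (i, n, fun _ => false)) = h (.w (i, n, single x)) := by
  obtain ⟨G, hG1, hG2⟩ := hE
  set e := h (.w (i, n, fun _ => false)) with he
  have hc : Continuous (fun z : K => h (.w (i, n, z))) :=
    hh.1.comp (continuous_w.comp (by fun_prop))
  have hopen : ∀ j, IsOpen {z : K | h (.w (i, n, z)) ∈ st e (G j)} := by
    intro j
    have : IsOpen (st e (G j)) := isOpen_sUnion fun U hU => (hG1 j).1 U hU.1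
    exact this.preimage hc
  have hF : ∀ j, ∃ F : Finset S, ∀ z : K, (∀ x ∈ F, z x = false) →
      h (.w (i, n, z)) ∈ st e (G j) := by
    intro j
    have hmem : (fun _ => false : K) ∈ {z : K | h (.w (i, n, z)) ∈ st e (G j)} :=
      show e ∈ st e (G j) from mem_of_mem_nhds ((hG2 e).mem_of_mem (i := j) trivial)
    obtain ⟨F, u, hu, hFu⟩ := isOpen_pi_iff.1 (hopen j) _ hmem
    refine ⟨F, fun z hz => hFu ?_⟩
    intro x hx
    rw [hz x hx]
    exact (hu x hx).2
  choose F hF using hF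
  refine ⟨⋃ j, (F j : Set S), countable_iUnion fun j => (F j).countable_toSet, ?_⟩
  intro x hx
  by_contra hne
  obtain ⟨j, hj⟩ := exists_not_mem_st h hh G hG2 e _ (Ne.symm hne)
  apply hj
  apply hF j
  intro y hy
  apply single_ne
  rintro rfl
  exact hx (mem_iUnion.2 ⟨j, hy⟩)

lemma chain (h : Y → E) (hh : IsPerfectMap h) (x : S)
    (hx : ∀ (i : ℕ) (n : N), h (.w (i, n, fun _ => false)) = h (.w (i, n, single x))) (i : ℕ) :
    h (.l (i, x)) = h (.l (i + 1, x)) := by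
  by_contra hne
  have hdisj : Disjoint (h ⁻¹' {h (.l (i, x))}) (h ⁻¹' {h (.l (i + 1, x))}) := by
    rw [Set.disjoint_left]
    intro p hp hp'
    exact hne (hp.symm.trans hp')
  obtain ⟨U1, U2, hU1, hU2, hP1, hP2, hU⟩ :=
    SeparatedNhds.of_isCompact_isCompact (hh.2.2.2 _) (hh.2.2.2 _) hdisj
  have hV1 : IsOpen (kernImage h U1) := isClosedMap_iff_kernImage.1 hh.2.1 hU1
  have hV2 : IsOpen (kernImage h U2) := isClosedMap_iff_kernImage.1 hh.2.1 hU2
  have h1 : (Sp.l (i, x) : Y) ∈ h ⁻¹' (kernImage h U1) := fun q hq => hP1 hq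
  have h2 : (Sp.l (i + 1, x) : Y) ∈ h ⁻¹' (kernImage h U2) := fun q hq => hP2 hq
  obtain ⟨M1, hM1⟩ := (hV1.preimage hh.1).2 _ h1
  obtain ⟨M2, hM2⟩ := (hV2.preimage hh.1).2 _ h2
  have h3 := hM1 (i, cut x (max M1 M2), single x) ⟨rfl, Or.inl ⟨rfl, single_self x⟩⟩
    (le_max_left _ _)
  have h4 := hM2 (i, cut x (max M1 M2), fun _ => false) ⟨rfl, Or.inr ⟨rfl, rfl⟩⟩
    (le_max_right _ _)
  have h5 : (Sp.w (i, cut x (max M1 M2), single x) : Y) ∈ U1 := h3 rfl
  have h6 : (Sp.w (i, cut x (max M1 M2), single x) : Y) ∈ U2 := h4 (hx _ _).symm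
  exact Set.disjoint_left.1 hU h5 h6

theorem not_perfect (h : Y → E) (hh : IsPerfectMap h) (hE : Developable E) : False := by
  choose C hC hCx using fun p : ℕ × N => slice h hh hE p.1 p.2
  have hcount : (⋃ p, C p).Countable := countable_iUnion hC
  have hunc : ¬ (univ : Set S).Countable := by
    rw [Set.countable_univ_iff]
    intro hc
    obtain ⟨q, hq⟩ := exists_surjective_nat S
    obtain ⟨n, hn⟩ := hq (fun n => !(q n n))
    have := congrFun hn n
    simp at this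
  obtain ⟨x, hx⟩ : ∃ x, x ∉ ⋃ p, C p := by
    by_contra hcon
    push Not at hcon
    exact hunc (hcount.mono fun x _ => hcon x)
  have hx' : ∀ (i : ℕ) (n : N), h (.w (i, n, fun _ => false)) = h (.w (i, n, single x)) :=
    fun i n => hCx (i, n) x fun hcon => hx (mem_iUnion.2 ⟨_, hcon⟩)
  have hall : ∀ i, h (.l (i, x)) = h (.l (0, x)) := by
    intro i
    induction i with
    | zero => rfl
    | succ i ih => rw [← chain h hh x hx' i, ih]
  have hcomp : IsCompact (h ⁻¹' {h (.l (0, x))}) := hh.2.2.2 _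
  let O : ℕ → Set Y := fun j => {p | ∀ i, p = .l (i, x) → i ≤ j}
  have hO : ∀ j, IsOpen (O j) := by
    intro j
    rw [isOpen_Sp]
    refine ⟨?_, fun ℓ _ => ⟨0, fun a _ _ i hi => by cases hi⟩⟩
    have : (Sp.w ⁻¹' O j : Set WX) = univ := by
      rw [eq_univ_iff_forall]
      intro a i hi
      cases hi
    rw [this]
    exact isOpen_univ
  obtain ⟨j, hj⟩ := hcomp.elim_directed_cover O hO
    (by
      intro p _
      rcases p with a | ⟨i, y⟩
      · exact mem_iUnion.2 ⟨0, fun i hi => by cases hi⟩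
      · refine mem_iUnion.2 ⟨i, fun i' hi' => ?_⟩
        simp only [Sp.l.injEq, Prod.mk.injEq] at hi'
        omega)
    (directed_of_isDirected_le fun a b hab p hp i hi => (hp i hi).trans hab)
  have h7 := hj (show (Sp.l (j + 1, x) : Y) ∈ _ from hall (j + 1)) (j + 1) rfl
  omega

end Main

/-- Isiwata's question has a negative answer: there are a developable space `D`, a perfect
preimage `X` of `D` and a perfect image `Y` of `X` such that `Y` is not a perfect preimage of a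
developable space. All three spaces are Tychonoff (so `D` is a Moore space). -/
theorem result : ∃ (X Y D : Type) (_ : TopologicalSpace X) (_ : TopologicalSpace Y)
    (_ : TopologicalSpace D) (g : X → D) (f : X → Y),
    T35Space X ∧ T35Space Y ∧ T35Space D ∧
    Developable D ∧ IsPerfectMap g ∧ IsPerfectMap f ∧ ¬ PerfectPreimageOfDevelopable.{u} Y :=
  ⟨X, Y, D, inferInstance, inferInstance, inferInstance, g, f, t35X, t35Y, t35D,
    developable_D, perfect_g, perfect_f, fun ⟨_, _, hE, h, hh⟩ => not_perfect h hh hE⟩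

end Pool.Agent.Results.MP_5c431f_gt.Counterexample
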